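import Pool.Agent.H916K.MainFour
import Pool.Agent.H916K.StructThree

/-!
# Parity criterion for Hodge characters
-/

set_option linter.unusedSectionVars false

namespace Pool.Agent.H916M

open Finset Pool.Agent.H916R2 Pool.Agent.H916K

/-- an odd distribution vanishes on generated multisets -/
lemma gen_sum {m : ℕ} {Q : Type*} [AddCommGroup Q] {c : ZMod m → Q} (hc : OddDist c)
    {s : Multiset (ZMod m)} (h : Generated m (fun _ => False) s) : (s.map c).sum = 0 := by
  induction h with
  | ofBase s hs => exact hs.elim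
  | pair a ha =>
    have h1 : (({a, -a} : Multiset (ZMod m)).map c).sum = c a + c (-a) := by
      simp
    rw [h1, hc.neg, add_neg_cancel]
  | standard p hp hp2 hpm a ha =>
    have hd : p * (m / p) = m := Nat.mul_div_cancel' hpm
    have h1 := hc.dist p (m / p) hp hd a
    rw [Multiset.map_cons, Multiset.sum_cons, Multiset.map_map, hc.neg]
    have h2 : ((Multiset.range p).map (c ∘ fun i : ℕ => a + (i : ZMod m) * ((m / p : ℕ) : ZMod m))).sum
        = ∑ i ∈ range p, c (a + (i : ZMod m) * ((m / p : ℕ) : ZMod m)) := rfl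
    rw [h2, h1, neg_add_cancel]
  | standardTwo hm a ha =>
    have hd : 2 * (m / 2) = m := Nat.mul_div_cancel' hm
    have h1 := hc.dist 2 (m / 2) Nat.prime_two hd a
    rw [sum_range_succ, sum_range_one] at h1
    have h2 : c ((m / 2 : ℕ) : ZMod m) = 0 := by
      apply hc.half
      have h3 : ((m / 2 : ℕ) : ZMod m) + ((m / 2 : ℕ) : ZMod m) = ((2 * (m / 2) : ℕ) : ZMod m) := by
        push_cast; ring
      rw [h3, hd]; simp
    have h4 : (({a, a + ((m / 2 : ℕ) : ZMod m), -(2 * a), ((m / 2 : ℕ) : ZMod m)} :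
        Multiset (ZMod m)).map c).sum = c a + (c (a + ((m / 2 : ℕ) : ZMod m)) +
          (c (-(2 * a)) + c ((m / 2 : ℕ) : ZMod m))) := by
      simp
    rw [h4, h2, hc.neg]
    simp only [Nat.cast_zero, zero_mul, add_zero, Nat.cast_one, one_mul, Nat.cast_ofNat] at h1
    rw [← h1]; abel
  | join s t hs ht ihs iht => rw [Multiset.map_add, Multiset.sum_add, ihs, iht, add_zero]
  | cancel a s h ih =>
    rw [Multiset.map_cons, Multiset.sum_cons, Multiset.map_cons, Multiset.sum_cons, hc.neg] at ih
    rw [← ih]; abel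

/-- elements of `l`-power order -/
lemma pow_iff {m M l a : ℕ} (hm : l ^ a * M = m) (hl : l.Prime) (hcop : l.Coprime M)
    {z : ZMod m} (hz : z ≠ 0) :
    ((l ^ a : ℕ) : ZMod m) * z = 0 ↔ (addOrderOf z).primeFactors = {l} := by
  have h0 : ((l ^ a : ℕ) : ZMod m) * z = (l ^ a) • z := by rw [nsmul_eq_mul]
  have h1 : addOrderOf z ≠ 1 := by
    intro h; exact hz (AddMonoid.addOrderOf_eq_one_iff.mp h)
  rw [h0, ← addOrderOf_dvd_iff_nsmul_eq_zero]
  constructor
  · intro h
    obtain ⟨i, hi, he⟩ := (Nat.dvd_prime_pow hl).mp h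
    have hi0 : i ≠ 0 := by
      rintro rfl; exact h1 (by rw [he, pow_zero])
    rw [he, Nat.primeFactors_prime_pow hi0 hl]
  · intro h
    have h2 : addOrderOf z ∣ m := by
      apply addOrderOf_dvd_of_nsmul_eq_zero
      rw [nsmul_eq_mul]; simp
    have h3 : (addOrderOf z).Coprime M := by
      apply Nat.Coprime.symm
      rw [Nat.coprime_iff_gcd_eq_one]
      by_contra hne
      obtain ⟨t, ht, htd⟩ := Nat.exists_prime_and_dvd hne
      have h4 : t ∣ M := htd.trans (Nat.gcd_dvd_left _ _)
      have h5 : t ∣ addOrderOf z := htd.trans (Nat.gcd_dvd_right _ _)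
      have hz0 : addOrderOf z ≠ 0 := by
        intro h6
        rw [h6, Nat.primeFactors_zero] at h
        exact absurd h.symm (Finset.singleton_ne_empty l)
      have h6 : t ∈ (addOrderOf z).primeFactors := Nat.mem_primeFactors.mpr ⟨ht, h5, hz0⟩
      rw [h, mem_singleton] at h6
      subst h6
      exact ht.one_lt.ne' (Nat.Coprime.eq_one_of_dvd hcop h4)
    exact h3.dvd_of_dvd_mul_right (h2.trans (dvd_of_eq hm.symm))

lemma count_eq {m M l a : ℕ} (hm : l ^ a * M = m) (hl : l.Prime) (hcop : l.Coprime M)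
    {s : Multiset (ZMod m)} (h0 : (0 : ZMod m) ∉ s) :
    (s.countP fun z => ((l ^ a : ℕ) : ZMod m) * z = 0) =
      s.countP fun z => (addOrderOf z).primeFactors = {l} := by
  apply Multiset.countP_congr rfl
  intro z hz
  exact propext (pow_iff hm hl hcop (fun h => h0 (h ▸ hz)))

/-- the parities of a generated multiset are even -/
lemma even_of_gen {m l : ℕ} [NeZero m] (hl : l.Prime) (hl2 : l ≠ 2) {s : Multiset (ZMod m)}
    (h0 : (0 : ZMod m) ∉ s) (h : Generated m (fun _ => False) s) :
    Even (s.countP fun z => (addOrderOf z).primeFactors = {l}) := by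
  obtain ⟨a, M, hM, hm⟩ := Nat.exists_eq_pow_mul_and_not_dvd (NeZero.ne m) l hl.ne_one
  have hcop : l.Coprime M := (Nat.Prime.coprime_iff_not_dvd hl).mpr hM
  have h1 := gen_sum (par_oddDist hl hl2 hcop hm.symm) h
  rw [sum_par h0, ZMod.natCast_eq_zero_iff_even, count_eq hm.symm hl hcop h0] at h1
  exact h1

end Pool.Agent.H916M
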